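import Mathlib
import Pool.Agent.W497.Mld.Defs

/-!
# Uniform rational polytopes for minimal log discrepancies: the definitions

An affine variety `X` is an `AffVar K`: its coordinate ring `X.R` is a subalgebra of the function
field `K`, and `X.T` is a basis of the rational vector fields (`X.d` of them, so that `X.d` is the
dimension of `X`), which fixes the canonical divisor `K_X`. Prime divisors on normal birational
models are given by their valuations `DVal`, see `Pool.Agent.H436R3.Fol.Defs`,
`Pool.Agent.H436R3.KT.Defs` and `Pool.Agent.W497.Mld.Defs`.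
-/

set_option autoImplicit false

namespace Pool.Agent.R889

open Pool.Agent.H436R3.Fol Pool.Agent.H436R3.KT Pool.Agent.W497.Mld

variable {K : Type} [Field K] [Algebra ℂ K] {X : AffVar K}

/-- An effective Weil divisor `a_1 D_1 + ... + a_n D_n` on `X`: the `D_i` are prime divisors on `X`,
and the `a_i` are non-negative integers. -/
structure WeilDiv (X : AffVar K) where
  n : ℕ
  D : Fin n → DVal K
  on : ∀ i, IsLocalRing' X.R (D i)
  a : Fin n → ℕ

open Classical in
/-- The multiplicity of the prime divisor `v` in the Weil divisor `B`. -/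
noncomputable def WeilDiv.mult (B : WeilDiv X) (v : DVal K) : ℕ :=
  ∑ i, if SameDiv v (B.D i) then B.a i else 0

/-- The multiplicity of the prime divisor `v` in the `ℝ`-divisor `t_1 B_1 + ... + t_m B_m`. -/
noncomputable def comb {m : ℕ} (t : Fin m → ℝ) (B : Fin m → WeilDiv X) (v : DVal K) : ℝ :=
  ∑ i, t i * ((B i).mult v : ℝ)

/-- A local equation of `K_X + B` at the closed point `P`, where `B` is the `ℝ`-divisor on `X` whose
multiplicity at the prime divisor `v` is `β v`: near `P`, `K_X + B` is the real linear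
combination `∑ ρ_i div (g_i)` of principal divisors. In particular, `K_X + B` is `ℝ`-Cartier
at `P`. -/
structure RLocEq (P : Pt X) (β : DVal K → ℝ) where
  n : ℕ
  ρ : Fin n → ℝ
  g : Fin n → K
  ne : ∀ i, g i ≠ 0
  eq : ∀ v, OnAt P v → ∃ a : ℤ, IsCanOrd X.T v a ∧
    (a : ℝ) + β v = ∑ i, ρ i * (v.ord (g i) : ℝ)

/-- `a` is the log discrepancy `a(v, X, B)` of a prime divisor `v` over `X` whose centre contains
`P`: one plus the order at `v` of the canonical divisor, minus the order at `v` of the pull-back of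
`K_X + B`. -/
def IsRLogDisc {P : Pt X} {β : DVal K → ℝ} (e : RLocEq P β) (v : DVal K) (a : ℝ) : Prop :=
  ∃ n : ℤ, IsCanOrd X.T v n ∧ a = 1 + (n : ℝ) - ∑ i, e.ρ i * (v.ord (e.g i) : ℝ)

/-- `K_X + B` is `ℝ`-Cartier at the closed point `P`, and the real number `μ` is the minimal log
discrepancy `mld (X ∋ P, B)`: the infimum of the log discrepancies of the prime divisors over `X`
with centre `P`. -/
def IsMldOf (P : Pt X) (β : DVal K → ℝ) (μ : ℝ) : Prop :=
  ∃ e : RLocEq P β, IsGLB {a | ∃ v, IsOverGerm P v ∧ IsRLogDisc e v a} μ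

/-- `K_X + B` is `ℝ`-Cartier at `P`, and the pair `(X ∋ P, B)` is `ε`-lc at `P`: the log
discrepancies of all prime divisors over `X` with centre `P` are at least `ε`. -/
def IsEpsLc (ε : ℝ) (P : Pt X) (β : DVal K → ℝ) : Prop :=
  ∃ e : RLocEq P β, ∀ v, IsOverGerm P v → ∃ a, IsRLogDisc e v a ∧ ε ≤ a

/-- The statement of Q1 for fixed `d`, `m`, `ε` and `v`, for germs of varieties at closed points:
there are rational points `q_1, ..., q_k` of `ℝ^m` with convex hull `P` (for instance, the vertices
of a rational polytope `P`), positive reals `a_j` and `ε_j` with `∑ a_j = 1`, `∑ a_j q_j = v` and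
`∑ a_j ε_j ≥ ε`, such that for all pairs `(X ∋ x, v_1 B_1 + ... + v_m B_m)` of dimension `d` that
are `ε`-lc at `x`, where the `B_i` are effective Weil divisors, the function
`t ↦ mld (X ∋ x, t_1 B_1 + ... + t_m B_m)` on `P` is real valued and affine, and its value at `q_j`
is at least `ε_j` for all `j`. -/
def HasUniformPolytope (d m : ℕ) (ε : ℝ) (v : Fin m → ℝ) : Prop :=
  ∃ (k : ℕ) (q : Fin k → Fin m → ℚ) (a ε' : Fin k → ℝ),
    (∀ j, 0 < a j) ∧ (∀ j, 0 < ε' j) ∧ ∑ j, a j = 1 ∧ (∀ i, ∑ j, a j * (q j i : ℝ) = v i) ∧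
    ε ≤ ∑ j, a j * ε' j ∧
    ∀ (K : Type) [Field K] [Algebra ℂ K] (X : AffVar K) (x : Pt X) (B : Fin m → WeilDiv X),
      X.d = d → IsNormal X → IsEpsLc ε x (comb v B) →
      (∃ (c₀ : ℝ) (c : Fin m → ℝ), ∀ t ∈ convexHull ℝ (Set.range fun j i => (q j i : ℝ)),
        IsMldOf x (comb t B) (c₀ + ∑ i, c i * t i)) ∧
      ∀ j, ∃ μ, IsMldOf x (comb (fun i => (q j i : ℝ)) B) μ ∧ ε' j ≤ μ

end Pool.Agent.R889
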