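import Mathlib
import Pool.Agent.TH165.ACC.Real
import Pool.Agent.H436R3.Can.Proj

/-!
# Toric germs: normality, prime divisors, simplicial cones
-/

set_option autoImplicit false
set_option linter.unusedSectionVars false

namespace Pool.Agent.R889

open Pool.Agent.H436R3.Fol Pool.Agent.H436R3.KT Pool.Agent.W497.Mld Pool.Agent.TH165.ACC
open MvPolynomial

section general

variable {K : Type} [Field K] [Algebra ℂ K]

/-- elements that are integral over a subalgebra of the valuation ring are regular -/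
theorem reg_of_int (v : DVal K) {S : Subalgebra ℂ K} (hS : ∀ f ∈ S, v.Reg f) {f : K}
    (hf : IsIntegral S f) : v.Reg f := by
  obtain ⟨p, hp, h0⟩ := hf
  let V : ValuationSubring K :=
    { toSubring := v.O
      mem_or_inv_mem' := fun f => by
        change v.Reg f ∨ v.Reg f⁻¹
        by_cases hf : f = 0
        · exact Or.inl (Or.inl hf)
        by_cases h : 0 ≤ v.ord f
        · exact Or.inl (Or.inr h)
        · right
          right
          rw [v.ord_inv hf]
          omega }
  let ψ : S →+* V :=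
    { toFun := fun s => ⟨(s : K), hS _ s.2⟩
      map_one' := rfl
      map_mul' := fun _ _ => rfl
      map_zero' := rfl
      map_add' := fun _ _ => rfl }
  have h1 : IsIntegral V f := by
    refine ⟨p.map ψ, hp.map _, ?_⟩
    rw [Polynomial.eval₂_map]
    exact h0
  obtain ⟨y, hy⟩ := IsIntegrallyClosed.algebraMap_eq_of_integral h1
  rw [← hy]
  exact y.2

/-- comparable valuation rings are equal -/
theorem same_of_reg {v w : DVal K} (h : ∀ f, v.Reg f → w.Reg f) : SameDiv v w := by
  obtain ⟨π, hπ, h1⟩ := v.surj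
  have hu : ∀ f : K, f ≠ 0 → v.ord f = 0 → w.ord f = 0 := by
    intro f hf h0
    have h2 := w.ord_nonneg hf (h f (Or.inr h0.ge))
    have h3 := w.ord_nonneg (inv_ne_zero hf) (h f⁻¹ (v.reg_inv hf h0))
    rw [w.ord_inv hf] at h3
    omega
  have hπw : 0 ≤ w.ord π := w.ord_nonneg hπ (h π (Or.inr (by omega)))
  have key : ∀ f : K, f ≠ 0 → w.ord f = v.ord f * w.ord π := by
    intro f hf
    have h2 : f * π ^ (-v.ord f) ≠ 0 := mul_ne_zero hf (zpow_ne_zero _ hπ)
    have h3 : v.ord (f * π ^ (-v.ord f)) = 0 := by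
      rw [v.map_mul _ _ hf (zpow_ne_zero _ hπ), v.ord_zpow hπ, h1]
      ring
    have h4 := hu _ h2 h3
    rw [w.map_mul _ _ hf (zpow_ne_zero _ hπ), w.ord_zpow hπ] at h4
    linarith
  obtain ⟨g, hg, hg1⟩ := w.surj
  have h5 := key g hg
  rw [hg1] at h5
  have h6 : w.ord π = 1 := by
    have h7 : w.ord π ∣ 1 := ⟨v.ord g, by rw [h5]; ring⟩
    exact Int.eq_one_of_dvd_one hπw h7
  intro f hf
  rw [key f hf, h6, mul_one]

theorem SameDiv.symm' {v w : DVal K} (h : SameDiv v w) : SameDiv w v := fun f hf => (h f hf).symm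

theorem isCanOrd_same {v w : DVal K} (h : SameDiv v w) {r : ℕ} {F : Foliation K r} {a : ℤ}
    (ha : IsCanOrd F v a) : IsCanOrd F w a := by
  have hreg : ∀ f, v.Reg f ↔ w.Reg f := by
    intro f
    by_cases hf : f = 0
    · simp [DVal.Reg, hf]
    · simp only [DVal.Reg, hf, false_or, h f hf]
  have hp : ∀ D, Preserves v D ↔ Preserves w D := by
    intro D
    constructor
    · intro hD f hf
      exact (hreg _).1 (hD f ((hreg _).2 hf))
    · intro hD f hf
      exact (hreg _).2 (hD f ((hreg _).1 hf))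
  obtain ⟨⟨A, hA0, hA, hAo⟩, h2⟩ := ha
  refine ⟨⟨A, hA0, fun i => (hp _).1 (hA i), by rw [← h _ hA0]; exact hAo⟩, ?_⟩
  rintro m ⟨B, hB0, hB, rfl⟩
  exact h2 ⟨B, hB0, fun i => (hp _).2 (hB i), h _ hB0⟩

end general

variable {n : ℕ} {K : Type} [Field K] [Algebra ℂ K]
  [Algebra (MvPolynomial (Fin n) ℂ) K] [IsFractionRing (MvPolynomial (Fin n) ℂ) K]
  [IsScalarTower ℂ (MvPolynomial (Fin n) ℂ) K]

/-- Laurent polynomials over the torus are polynomials up to a power of the product of the
variables -/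
theorem laurent_clear {C : Set (Fin n → ℤ)} {f : K} (hf : f ∈ LA K C) :
    ∃ N : ℕ, ∀ m, N ≤ m → (∏ i : Fin n, cv K i) ^ m * f ∈ RA (Fin n) K := by
  have hprod : ∀ m : ℕ, (∏ i : Fin n, cv K i) ^ m = ym K (fun _ : Fin n => (m : ℤ)) := by
    intro m
    rw [ym, ← Finset.prod_pow]
    exact Finset.prod_congr rfl fun i _ => by rw [zpow_natCast]
  have hpr : ∀ m : ℕ, (∏ i : Fin n, cv K i) ^ m ∈ RA (Fin n) K := fun m =>
    (RA (Fin n) K).pow_mem (Subalgebra.prod_mem _ fun i _ => cv_mem i) m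
  induction hf using Algebra.adjoin_induction with
  | mem x hx =>
    obtain ⟨m, -, rfl⟩ := hx
    refine ⟨∑ i, (-m i).toNat, fun M hM => ?_⟩
    rw [hprod, ← ym_add, ym]
    refine prod_mem fun i _ => ?_
    have h1 : (-m i).toNat ≤ M := (Finset.single_le_sum (f := fun i => (-m i).toNat)
      (fun _ _ => Nat.zero_le _) (Finset.mem_univ i)).trans hM
    have h2 : ((fun _ : Fin n => (M : ℤ)) + m) i = (((M : ℤ) + m i).toNat : ℤ) := by
      change (M : ℤ) + m i = _
      omega
    rw [h2, zpow_natCast]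
    exact pow_mem (cv_mem i) _
  | algebraMap r =>
    exact ⟨0, fun m _ => mul_mem (hpr m) (Subalgebra.algebraMap_mem _ _)⟩
  | add x y _ _ hx hy =>
    obtain ⟨N, hN⟩ := hx
    obtain ⟨M, hM⟩ := hy
    refine ⟨max N M, fun m hm => ?_⟩
    rw [mul_add]
    exact add_mem (hN m ((le_max_left _ _).trans hm)) (hM m ((le_max_right _ _).trans hm))
  | mul x y _ _ hx hy =>
    obtain ⟨N, hN⟩ := hx
    obtain ⟨M, hM⟩ := hy
    refine ⟨N + M, fun m hm => ?_⟩
    obtain ⟨k, rfl⟩ := Nat.exists_eq_add_of_le hm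
    have h1 : (∏ i : Fin n, cv K i) ^ (N + M + k) * (x * y) =
        ((∏ i : Fin n, cv K i) ^ N * x) * ((∏ i : Fin n, cv K i) ^ (M + k) * y) := by
      rw [add_assoc, pow_add]
      ring
    rw [h1]
    exact mul_mem (hN N le_rfl) (hM _ (Nat.le_add_right _ _))

/-- affine toric varieties are normal -/
theorem toric_normal (g : ToricGerm n K) : IsNormal g.X := by
  classical
  intro f hf
  by_cases hf0 : f = 0
  · rw [hf0]; exact zero_mem _
  have h1 : ∀ a ∈ g.X.R, ∃ N : ℕ, ∀ m, N ≤ m → (∏ i : Fin n, cv K i) ^ m * a ∈ RA (Fin n) K := by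
    intro a ha
    rw [g.hR] at ha
    exact laurent_clear ha
  obtain ⟨N, hN⟩ := Pool.Agent.H436R3.Can.integral_of_pow h1 (prod_mem fun i _ => cv_mem i) hf
  obtain ⟨p, hp⟩ := RA_normal hN
  have hprod : (∏ i : Fin n, cv K i) ^ N = ym K (fun _ : Fin n => (N : ℤ)) := by
    rw [ym, ← Finset.prod_pow]
    exact Finset.prod_congr rfl fun i _ => by rw [zpow_natCast]
  have hfp : f = jo (Fin n) K p * ym K (-fun _ : Fin n => (N : ℤ)) := by
    change jo (Fin n) K p = _ at hp
    rw [hp, hprod, mul_comm (ym K _) f, mul_assoc, ym_mul_neg, mul_one]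
  have hp0 : p ≠ 0 := by
    rintro rfl
    rw [map_zero, zero_mul] at hfp
    exact hf0 hfp
  rw [g.hR, hfp]
  apply jo_mul_mem_LA
  intro s hs i
  obtain ⟨v, hv, htv⟩ := exists_mon (K := K) (g.prim i)
  have hreg : v.Reg f := by
    refine reg_of_int v (fun a ha => ?_) hf
    exact (local_Hs hv).1 _ (ToricGerm.R_le (by rw [htv]; exact ToricGerm.inCone_E i) ha)
  have h2 := v.ord_nonneg hf0 hreg
  rw [hfp, v.map_mul _ _ (jo_ne hp0) (ym_ne _), ord_ym, htv] at h2
  have h3 := (hv p hp0).2 s hs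
  rw [htv] at h3
  rw [pr_add]
  omega

/-- A prime divisor on a toric variety whose weight vector lies on faces that involve the ray `E i`
is the toric divisor of `E i`. -/
theorem same_toric {g : ToricGerm n K} {v : DVal K} (hv : IsLocalRing' g.X.R v) {i : Fin g.N}
    (h : ∀ m ∈ Cn g.E, 0 < pr m (g.E i) → 0 < pr m (tv v)) {w : DVal K} (hw : IsMonomial n w)
    (hwi : (tv w : Fin n → ℤ) = g.E i) : SameDiv v w := by
  have hwL := ToricGerm.local_E hw hwi
  have hcone : g.InCone (tv w) := by rw [hwi]; exact ToricGerm.inCone_E i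
  have key : ∀ b ∈ g.X.R, b ≠ 0 → 0 < w.ord b → 0 < v.ord b := by
    intro b hb hb0 hpos
    obtain ⟨M, q, h1, h2, h3⟩ := g.rep ⟨b, hb⟩
    change b * ym K (ex M) = jo (Fin n) K q at h1
    have hq : q ≠ 0 := by
      rintro rfl
      rw [map_zero] at h1
      exact mul_ne_zero hb0 (ym_ne _) h1
    have h4 : w.ord b = w.ord (jo (Fin n) K q) - pr (ex M) (tv w) := by
      rw [← h1, w.map_mul _ _ hb0 (ym_ne _), ord_ym]
      ring
    have h5 : ∀ s ∈ q.support, 0 < pr (ex s - ex M) (tv v) := by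
      intro s hs
      refine h _ (h3 s hs) ?_
      rw [← hwi, pr_sub]
      have := (hw q hq).2 s hs
      omega
    have h6 : b = ∑ s ∈ q.support, algebraMap ℂ K (q.coeff s) * ym K (ex s - ex M) := by
      have h7 : b = jo (Fin n) K q * ym K (-ex M) := by
        rw [← h1, mul_assoc, ym_mul_neg, mul_one]
      rw [h7, jo_eq_sum, Finset.sum_mul]
      refine Finset.sum_congr rfl fun s _ => ?_
      rw [mul_assoc, ← ym_add, sub_eq_add_neg]
    have h8 : v.Pos b := by
      rw [h6]
      have h9 : ∀ S : Finset (Fin n →₀ ℕ), S ⊆ q.support →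
          v.Pos (∑ s ∈ S, algebraMap ℂ K (q.coeff s) * ym K (ex s - ex M)) := by
        classical
        intro S
        induction S using Finset.induction_on with
        | empty => intro _; rw [Finset.sum_empty]; exact Or.inl rfl
        | insert a S ha ih =>
          intro hS
          rw [Finset.sum_insert ha]
          refine v.pos_add (v.pos_mul_left (v.reg_const _) (Or.inr ?_))
            (ih fun x hx => hS (Finset.mem_insert_of_mem hx))
          rw [ord_ym]
          exact h5 a (hS (Finset.mem_insert_self _ _))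
      exact h9 _ subset_rfl
    rcases h8 with h8 | h8
    · exact absurd h8 hb0
    · exact h8
  apply same_of_reg
  intro f hf
  obtain ⟨a, b, ha, hb, hb0, hbo, hab⟩ := hv.2 f hf
  have h1 : w.ord b = 0 := by
    have h2 := w.ord_nonneg hb0 (hwL.1 b hb)
    by_contra h3
    have := key b hb hb0 (by omega)
    omega
  have h2 : f = a * b⁻¹ := by rw [← hab, mul_assoc, mul_inv_cancel₀ hb0, mul_one]
  rw [h2]
  exact w.reg_mul (hwL.1 a ha) (w.reg_inv hb0 h1)

/-- the canonical order of a divisor over a toric germ exists and is at least `-1` -/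
theorem exists_can_toric {g : ToricGerm n K} {v : DVal K}
    (hv : ∃ S : Subalgebra ℂ K, S.FG ∧ g.X.R ≤ S ∧ IsLocalRing' S v) :
    ∃ a : ℤ, IsCanOrd g.X.T v a ∧ -1 ≤ a := by
  let X : NormalAffine K := ⟨g.X.R, g.X.fg, g.X.frac, toric_normal g⟩
  exact exists_isCanOrd v (X := X) hv g.X.T fun A hA0 hA => can_ge_neg g.e g.hT v A hA0 hA

end Pool.Agent.R889
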