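import Mathlib
import Pool.Agent.R889.Toric
import Pool.Agent.R889.PolyDefs

/-!
# Log discrepancies over toric germs do not depend on the local equation
-/

set_option autoImplicit false
set_option linter.unusedSectionVars false

namespace Pool.Agent.R889

open Pool.Agent.H436R3.Fol Pool.Agent.H436R3.KT Pool.Agent.W497.Mld Pool.Agent.TH165.ACC
open MvPolynomial

variable {n : ℕ} {K : Type} [Field K] [Algebra ℂ K]
  [Algebra (MvPolynomial (Fin n) ℂ) K] [IsFractionRing (MvPolynomial (Fin n) ℂ) K]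
  [IsScalarTower ℂ (MvPolynomial (Fin n) ℂ) K]

/-- a real linear combination of principal divisors that is zero near the point has order zero
along all divisors over the germ -/
theorem sum_zero {g : ToricGerm n K} {r : ℕ} (ρ : Fin r → ℝ) (G : Fin r → K) (hG : ∀ k, G k ≠ 0)
    (h : ∀ v, OnAt g.P v → ∑ k, ρ k * (v.ord (G k) : ℝ) = 0) {v : DVal K}
    (hv : IsOverGerm g.P v) : ∑ k, ρ k * (v.ord (G k) : ℝ) = 0 := by
  classical
  obtain ⟨F, c, hFp, hFd, hc⟩ := fact (n := n) ρ G hG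
  have hint := ToricGerm.inter_of_over (n := n) hv
  obtain ⟨k, u', hk, hu', htv'⟩ := exists_prim (ne_zero_of_inter hint)
  obtain ⟨v', hv', rfl⟩ := exists_mon (K := K) hu'
  have hint' : g.Inter (tv v') := by
    intro r hr hr0
    have h1 := hint r hr hr0
    rw [htv', pr_smul_right] at h1
    exact (pos_iff_pos_of_mul_pos h1).1 hk
  have hthr : ∀ p ∈ F, Thr g p → c p = 0 := by
    rintro p hp ⟨hpp, hcv, hon⟩
    have h5 : ∑ r ∈ F, c r * ((valP K p hpp).ord (jo (Fin n) K r) : ℝ) = c p := by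
      rw [Finset.sum_eq_single p]
      · rw [valP_self]; push_cast; ring
      · intro r hr hrp
        rw [valP_other hpp (hFp r hr).ne_zero fun h => hrp (hFd p hp r hr h).symm]
        push_cast; ring
      · intro h; exact absurd hp h
    rw [← h5, ← hc]
    exact h _ hon
  obtain ⟨d, a, w, hw, hco, D, hD⟩ := exists_simplex hint'.inCone
  choose vE hvE htE using fun i => exists_mon (K := K) (g.prim (a i))
  have h1 : ∀ i, ∑ p ∈ F, c p * ((vE i).ord (jo (Fin n) K p) : ℝ) = 0 := by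
    intro i
    rw [← hc]
    exact h _ (ToricGerm.onAt_E (hvE i) (htE i))
  rw [hc]
  have h2 : ∀ p ∈ F, c p * (v.ord (jo (Fin n) K p) : ℝ) =
      k * ∑ i, w i * (c p * ((vE i).ord (jo (Fin n) K p) : ℝ)) := by
    intro p hp
    by_cases h3 : Thr g p
    · rw [hthr p hp h3]
      simp
    · have h4 := eq_of_not_thr hv hv' hint'.inCone hk htv' (hFp p hp) h3
      have h5 := lin_of_not_thr hvE htE (hFp p hp) h3 hv' (fun i => (hw i).le) hco
      rw [h4]
      push_cast
      rw [h5, Finset.mul_sum, Finset.mul_sum, Finset.mul_sum]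
      exact Finset.sum_congr rfl fun i _ => by ring
  rw [Finset.sum_congr rfl h2, ← Finset.mul_sum, Finset.sum_comm]
  simp only [← Finset.mul_sum, h1, mul_zero, Finset.sum_const_zero]

/-- log discrepancies do not depend on the local equation -/
theorem rho_indep {g : ToricGerm n K} {β : DVal K → ℝ} (e e' : RLocEq g.P β) {v : DVal K}
    (hv : IsOverGerm g.P v) :
    ∑ i, e.ρ i * (v.ord (e.g i) : ℝ) = ∑ i, e'.ρ i * (v.ord (e'.g i) : ℝ) := by
  have h1 := sum_zero (g := g) (Fin.append e.ρ (fun i => -e'.ρ i)) (Fin.append e.g e'.g) (by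
    intro k
    refine Fin.addCases (fun i => ?_) (fun i => ?_) k
    · rw [Fin.append_left]; exact e.ne i
    · rw [Fin.append_right]; exact e'.ne i) (fun w hw => ?_) hv
  · rw [Fin.sum_univ_add] at h1
    simp only [Fin.append_left, Fin.append_right, neg_mul, Finset.sum_neg_distrib] at h1
    linarith
  · rw [Fin.sum_univ_add]
    simp only [Fin.append_left, Fin.append_right, neg_mul, Finset.sum_neg_distrib]
    obtain ⟨a, ha, h2⟩ := e.eq w hw
    obtain ⟨b, hb, h3⟩ := e'.eq w hw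
    have h4 : a = b := ha.unique hb
    rw [← h2, ← h3, h4]
    ring

theorem logDisc_indep {g : ToricGerm n K} {β : DVal K → ℝ} (e e' : RLocEq g.P β) {v : DVal K}
    (hv : IsOverGerm g.P v) {a : ℝ} : IsRLogDisc e v a ↔ IsRLogDisc e' v a := by
  simp only [IsRLogDisc, rho_indep e e' hv]

/-- a prime divisor on a toric germ is either a toric divisor or it meets the torus -/
theorem prime_cases {g : ToricGerm n K} {v : DVal K} (hv : IsLocalRing' g.X.R v) :
    (tv v : Fin n → ℤ) = 0 ∨ ∃ i, ∀ w : DVal K, IsMonomial n w → (tv w : Fin n → ℤ) = g.E i →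
      SameDiv v w := by
  by_cases h0 : (tv v : Fin n → ℤ) = 0
  · exact Or.inl h0
  right
  have hin : ∀ m ∈ Cn g.E, 0 ≤ pr m (tv v) := by
    intro m hm
    rw [← ord_ym]
    exact v.ord_nonneg (ym_ne _) (hv.1 _ (by rw [g.hR]; exact ym_mem_LA hm))
  obtain ⟨d, a, w, hw, hco, -⟩ := exists_simplex hin
  have hd : 0 < d := by
    by_contra hd
    have : d = 0 := by omega
    subst this
    apply h0
    funext k
    have := hco k
    rw [Finset.univ_eq_empty, Finset.sum_empty] at this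
    exact_mod_cast this.symm
  refine ⟨a ⟨0, hd⟩, fun w' hw' htw' => same_toric hv (fun m hm hpos => ?_) hw' htw'⟩
  have h1 : (0 : ℝ) < pr m (tv v) := by
    rw [coord_pr hco]
    refine Finset.sum_pos' (fun i _ => mul_nonneg (hw i).le (by exact_mod_cast hm (a i)))
      ⟨⟨0, hd⟩, Finset.mem_univ _, mul_pos (hw _) (by exact_mod_cast hpos)⟩
  exact_mod_cast h1

/-- the local equation of `K_X + B` for a toric boundary `B` -/
noncomputable def torEq (g : ToricGerm n K) (ℓ : Fin n → ℝ) {β : DVal K → ℝ}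
    (h0 : ∀ v, OnAt g.P v → (tv v : Fin n → ℤ) = 0 → β v = 0)
    (h1 : ∀ v i w, OnAt g.P v → IsMonomial n w → (tv w : Fin n → ℤ) = g.E i → SameDiv v w →
      β v = 1 - ∑ k, ℓ k * (g.E i k : ℝ)) : RLocEq g.P β where
  n := n
  ρ := fun k => -ℓ k
  g := fun k => cv K k
  ne := fun k => cv_ne k
  eq := fun v hv => by
    have e1 : ∑ i, -ℓ i * (v.ord (cv K i) : ℝ) = -∑ k, ℓ k * ((tv v : Fin n → ℤ) k : ℝ) := by
      rw [← Finset.sum_neg_distrib]
      exact Finset.sum_congr rfl fun k _ => by rw [tv]; ring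
    rcases prime_cases hv.1 with h2 | ⟨i, h2⟩
    · refine ⟨0, can_unit g.e g.hT (by rw [← g.hR]; exact hv.1) (fun k => congrFun h2 k), ?_⟩
      rw [e1, h0 v hv h2, h2]
      simp
    · obtain ⟨w, hw, htw⟩ := exists_mon (K := K) (g.prim i)
      have h3 := h2 w hw htw
      refine ⟨-1, isCanOrd_same (SameDiv.symm' h3) (can_mon g.e g.hT hw), ?_⟩
      have h4 : (tv v : Fin n → ℤ) = g.E i := by
        rw [← htw]
        funext k
        exact h3 _ (cv_ne k)
      rw [e1, h1 v i w hv hw htw h3, h4]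
      push_cast
      ring

theorem torEq_logDisc {g : ToricGerm n K} {ℓ : Fin n → ℝ} {β : DVal K → ℝ}
    {h0 : ∀ v, OnAt g.P v → (tv v : Fin n → ℤ) = 0 → β v = 0}
    {h1 : ∀ v i w, OnAt g.P v → IsMonomial n w → (tv w : Fin n → ℤ) = g.E i → SameDiv v w →
      β v = 1 - ∑ k, ℓ k * (g.E i k : ℝ)} {v : DVal K} {a : ℝ} :
    IsRLogDisc (torEq g ℓ h0 h1) v a ↔
      ∃ b : ℤ, IsCanOrd g.X.T v b ∧ a = 1 + (b : ℝ) + ∑ k, ℓ k * ((tv v : Fin n → ℤ) k : ℝ) := by
  have e1 : ∑ i, -ℓ i * (v.ord (cv K i) : ℝ) = -∑ k, ℓ k * ((tv v : Fin n → ℤ) k : ℝ) := by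
    rw [← Finset.sum_neg_distrib]
    exact Finset.sum_congr rfl fun k _ => by rw [tv]; ring
  change (∃ b : ℤ, _ ∧ a = 1 + (b : ℝ) - ∑ i, -ℓ i * (v.ord (cv K i) : ℝ)) ↔ _
  rw [e1]
  simp only [sub_neg_eq_add]

end Pool.Agent.R889
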