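import Mathlib
import Pool.Agent.R889.Indep

/-!
# The example: products of cyclic quotient surface singularities and affine spaces

The cone in `ℤ^(k+2)` has the rays `r e_0 - p e_1` and `e_1, ..., e_(k+1)`, where `p ≥ 2` and
`r = (m + 1) p - 1`.
-/

set_option autoImplicit false
set_option linter.unusedSectionVars false

namespace Pool.Agent.R889

open Pool.Agent.H436R3.Fol Pool.Agent.H436R3.KT Pool.Agent.W497.Mld Pool.Agent.TH165.ACC
open MvPolynomial

/-- the rays -/
def ray (k : ℕ) (r p : ℤ) (i : Fin (k + 2)) : Fin (k + 2) → ℤ :=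
  Fin.cases (Fin.cons r (Fin.cons (-p) fun _ => 0)) (fun j => Pi.single j.succ 1) i

theorem ray_zero (k : ℕ) (r p : ℤ) :
    ray k r p 0 = Fin.cons r (Fin.cons (-p) fun _ => 0) := rfl

theorem ray_succ (k : ℕ) (r p : ℤ) (j : Fin (k + 1)) : ray k r p j.succ = Pi.single j.succ 1 := rfl

theorem pr_ray_zero (k : ℕ) (r p : ℤ) (m : Fin (k + 2) → ℤ) :
    pr m (ray k r p 0) = r * m 0 - p * m 1 := by
  rw [pr, Fin.sum_univ_succ, Fin.sum_univ_succ, ray_zero]
  simp only [Fin.cons_zero, Fin.cons_succ, mul_zero, Finset.sum_const_zero, add_zero]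
  rw [Fin.succ_zero_eq_one]
  ring

theorem pr_ray_succ (k : ℕ) (r p : ℤ) (m : Fin (k + 2) → ℤ) (j : Fin (k + 1)) :
    pr m (ray k r p j.succ) = m j.succ := by
  rw [pr, ray_succ, Finset.sum_eq_single j.succ]
  · rw [Pi.single_eq_same, mul_one]
  · intro i _ hi
    rw [Pi.single_eq_of_ne hi, mul_zero]
  · intro h; exact absurd (Finset.mem_univ _) h

theorem forall_fin2 {k : ℕ} {P : Fin (k + 2) → Prop} :
    (∀ i, P i) ↔ P 0 ∧ ∀ j : Fin (k + 1), P j.succ :=
  ⟨fun h => ⟨h 0, fun j => h _⟩, fun h i => Fin.cases h.1 h.2 i⟩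

/-- numerical data: `p ≥ 2`, `m ≥ 1` and `r = (m + 1) p - 1` -/
structure Num where
  p : ℤ
  m : ℤ
  r : ℤ
  hp : 2 ≤ p
  hm : 1 ≤ m
  hr : r = (m + 1) * p - 1

namespace Num

variable (N : Num)

theorem r_pos : 0 < N.r := by
  have h1 := N.hp
  have h2 := N.hm
  rw [N.hr]
  nlinarith

theorem p_lt : N.p < N.r := by
  have h1 := N.hp
  have h2 := N.hm
  rw [N.hr]
  nlinarith

end Num

variable {k : ℕ} {K : Type} [Field K] [Algebra ℂ K]
  [Algebra (MvPolynomial (Fin (k + 2)) ℂ) K] [IsFractionRing (MvPolynomial (Fin (k + 2)) ℂ) K]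
  [IsScalarTower ℂ (MvPolynomial (Fin (k + 2)) ℂ) K]

theorem exists_g (N : Num) : ∃ (g : ToricGerm (k + 2) K) (h : k + 2 = g.N),
    ∀ i, g.E (Fin.cast h i) = ray k N.r N.p i := by
  have hr := N.r_pos
  have hp := N.hp
  have hpr := N.p_lt
  have hpp : 0 < N.r * N.p - N.p := by nlinarith
  refine exists_germ (by omega) ?_ ?_ ?_ ?_
  · rw [forall_fin2]
    refine ⟨⟨Fin.cons (-1) (Fin.cons (-(N.m + 1)) fun _ => 0), ?_⟩, fun j => ⟨Pi.single j.succ 1, ?_⟩⟩
    · rw [pr_ray_zero]
      have h1 : (Fin.cons (-1) (Fin.cons (-(N.m + 1)) fun _ => 0) : Fin (k + 2) → ℤ) 0 = -1 := rfl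
      have h2 : (Fin.cons (-1) (Fin.cons (-(N.m + 1)) fun _ => 0) : Fin (k + 2) → ℤ) 1 =
        -(N.m + 1) := rfl
      rw [h1, h2, N.hr]
      ring
    · rw [pr_ray_succ, Pi.single_eq_same]
  · rw [forall_fin2]
    constructor
    · refine ⟨Fin.cons N.p (Fin.cons N.r fun _ => 1), ?_, ?_⟩
      · rw [pr_ray_zero]
        have h1 : (Fin.cons N.p (Fin.cons N.r fun _ => 1) : Fin (k + 2) → ℤ) 0 = N.p := rfl
        have h2 : (Fin.cons N.p (Fin.cons N.r fun _ => 1) : Fin (k + 2) → ℤ) 1 = N.r := rfl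
        rw [h1, h2]
        ring
      · rw [forall_fin2]
        refine ⟨fun h => absurd rfl h, fun j _ => ?_⟩
        rw [pr_ray_succ]
        refine Fin.cases ?_ (fun j => ?_) j
        · exact hr
        · exact one_pos
    · intro j
      refine ⟨Function.update (Fin.cons N.p (fun _ => 1)) j.succ 0, ?_, ?_⟩
      · rw [pr_ray_succ, Function.update_self]
      · rw [forall_fin2]
        constructor
        · intro _
          rw [pr_ray_zero, Function.update_of_ne (Fin.succ_ne_zero j).symm]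
          have h1 : (Fin.cons N.p (fun _ => 1) : Fin (k + 2) → ℤ) 0 = N.p := rfl
          rw [h1]
          by_cases hj : (1 : Fin (k + 2)) = j.succ
          · rw [hj, Function.update_self]
            nlinarith
          · rw [Function.update_of_ne hj]
            have h2 : (Fin.cons N.p (fun _ => 1) : Fin (k + 2) → ℤ) 1 = 1 := rfl
            rw [h2]
            linarith
        · intro i hi
          rw [pr_ray_succ, Function.update_of_ne hi]
          exact one_pos
  · refine ⟨Fin.cons N.p (fun _ => 1), ?_⟩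
    rw [forall_fin2]
    constructor
    · rw [pr_ray_zero]
      have h1 : (Fin.cons N.p (fun _ => 1) : Fin (k + 2) → ℤ) 0 = N.p := rfl
      have h2 : (Fin.cons N.p (fun _ => 1) : Fin (k + 2) → ℤ) 1 = 1 := rfl
      rw [h1, h2]
      linarith
    · intro j
      rw [pr_ray_succ]
      exact one_pos
  · intro m hm
    rw [forall_fin2] at hm
    obtain ⟨h0, h1⟩ := hm
    have h2 : ∀ j : Fin (k + 1), m j.succ = 0 := fun j => by rw [← pr_ray_succ k N.r N.p m j]; exact h1 j
    funext i
    refine Fin.cases ?_ (fun j => h2 j) i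
    rw [pr_ray_zero] at h0
    have h3 : m 1 = 0 := h2 0
    rw [h3, mul_zero, sub_zero] at h0
    exact (mul_eq_zero.1 h0).resolve_left hr.ne'

section

variable {N : Num} {g : ToricGerm (k + 2) K} {h : k + 2 = g.N}
  (hE : ∀ i, g.E (Fin.cast h i) = ray k N.r N.p i)

include hE

theorem mem_Cn_iff (m : Fin (k + 2) → ℤ) :
    m ∈ Cn g.E ↔ 0 ≤ N.r * m 0 - N.p * m 1 ∧ ∀ j : Fin (k + 1), 0 ≤ m j.succ := by
  have h1 : m ∈ Cn g.E ↔ ∀ i, 0 ≤ pr m (ray k N.r N.p i) := by
    constructor
    · intro hm i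
      rw [← hE]
      exact hm _
    · intro hm i
      have := hm (Fin.cast h.symm i)
      rw [← hE] at this
      simpa using this
  rw [h1, forall_fin2, pr_ray_zero]
  simp only [pr_ray_succ]

/-- interior lattice points -/
theorem inter_iff (u : Fin (k + 2) → ℤ) :
    g.Inter u ↔ 0 < u 0 ∧ 0 < N.r * u 1 + N.p * u 0 ∧ ∀ j : Fin k, 0 < u j.succ.succ := by
  have hr := N.r_pos
  have hp := N.hp
  constructor
  · intro hu
    refine ⟨?_, ?_, fun j => ?_⟩
    · have := hu (Pi.single 0 1) ((mem_Cn_iff hE _).2 ⟨by simp [hr.le], fun j => by simp⟩)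
        (by intro h0; have := congrFun h0 0; simp at this)
      rw [pr, Finset.sum_eq_single 0] at this
      · simpa using this
      · intro i _ hi
        simp [hi]
      · intro h; exact absurd (Finset.mem_univ _) h
    · have := hu (Fin.cons N.p (Fin.cons N.r fun _ => 0)) ((mem_Cn_iff hE _).2 ⟨?_, fun j => ?_⟩) ?_
      · rw [pr, Fin.sum_univ_succ, Fin.sum_univ_succ] at this
        simp only [Fin.cons_zero, Fin.cons_succ, zero_mul, Finset.sum_const_zero, add_zero] at this
        rw [Fin.succ_zero_eq_one] at this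
        linarith
      · have h1 : (Fin.cons N.p (Fin.cons N.r fun _ => 0) : Fin (k + 2) → ℤ) 0 = N.p := rfl
        have h2 : (Fin.cons N.p (Fin.cons N.r fun _ => 0) : Fin (k + 2) → ℤ) 1 = N.r := rfl
        rw [h1, h2]
        linarith
      · refine Fin.cases ?_ (fun j => ?_) j
        · exact hr.le
        · exact le_rfl
      · intro h0
        have h1 := congrFun h0 0
        change N.p = 0 at h1
        omega
    · have := hu (Pi.single j.succ.succ 1) ((mem_Cn_iff hE _).2 ⟨?_, fun i => ?_⟩)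
        (by intro h0; have := congrFun h0 j.succ.succ; simp at this)
      · rw [pr, Finset.sum_eq_single j.succ.succ] at this
        · simpa using this
        · intro i _ hi
          simp [hi]
        · intro h; exact absurd (Finset.mem_univ _) h
      · have h1 : (Pi.single j.succ.succ 1 : Fin (k + 2) → ℤ) 0 = 0 :=
          Pi.single_eq_of_ne (Fin.succ_ne_zero _).symm _
        have h2 : (Pi.single j.succ.succ 1 : Fin (k + 2) → ℤ) 1 = 0 := by
          rw [← Fin.succ_zero_eq_one]
          exact Pi.single_eq_of_ne (fun h => Fin.succ_ne_zero j (Fin.succ_injective _ h).symm) _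
        rw [h1, h2]
        simp
      · by_cases hij : i.succ = j.succ.succ
        · rw [hij, Pi.single_eq_same]
          exact zero_le_one
        · rw [Pi.single_eq_of_ne hij]
  · rintro ⟨h0, h1, h2⟩ m hm hm0
    obtain ⟨h3, h4⟩ := (mem_Cn_iff hE _).1 hm
    have h5 : m 1 = m (0 : Fin (k + 1)).succ := rfl
    have h6 : 0 ≤ m 1 := h5 ▸ h4 0
    have key : N.r * pr m u = (N.r * m 0 - N.p * m 1) * u 0 + m 1 * (N.r * u 1 + N.p * u 0) +
        ∑ j : Fin k, N.r * (m j.succ.succ * u j.succ.succ) := by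
      rw [pr, Fin.sum_univ_succ, Fin.sum_univ_succ, ← Finset.mul_sum, Fin.succ_zero_eq_one]
      ring
    have h7 : ∀ j : Fin k, 0 ≤ N.r * (m j.succ.succ * u j.succ.succ) := fun j =>
      mul_nonneg hr.le (mul_nonneg (h4 _) (h2 j).le)
    have h8 : 0 < N.r * pr m u := by
      rw [key]
      by_contra hcon
      have h9 := Finset.sum_nonneg fun (j : Fin k) (_ : j ∈ Finset.univ) => h7 j
      have h10 := mul_nonneg h3 h0.le
      have h11 := mul_nonneg h6 h1.le
      have h12 : (N.r * m 0 - N.p * m 1) * u 0 = 0 := by linarith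
      have h13 : m 1 * (N.r * u 1 + N.p * u 0) = 0 := by linarith
      have h14 : ∑ j : Fin k, N.r * (m j.succ.succ * u j.succ.succ) = 0 := by linarith
      have h15 : m 1 = 0 := (mul_eq_zero.1 h13).resolve_right h1.ne'
      have h16 : N.r * m 0 - N.p * m 1 = 0 := (mul_eq_zero.1 h12).resolve_right h0.ne'
      rw [h15, mul_zero, sub_zero] at h16
      have h17 : m 0 = 0 := (mul_eq_zero.1 h16).resolve_left hr.ne'
      have h18 := (Finset.sum_eq_zero_iff_of_nonneg fun j _ => h7 j).1 h14
      apply hm0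
      funext i
      refine Fin.cases h17 (fun j => ?_) i
      refine Fin.cases h15 (fun j => ?_) j
      have h19 := h18 j (Finset.mem_univ _)
      exact (mul_eq_zero.1 ((mul_eq_zero.1 h19).resolve_left hr.ne')).resolve_right (h2 j).ne'
    exact (pos_iff_pos_of_mul_pos h8).1 hr

end

end Pool.Agent.R889
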