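import Mathlib
import Pool.Agent.R889.Poly

/-!
# Minimal log discrepancies on the example
-/

set_option autoImplicit false
set_option linter.unusedSectionVars false

namespace Pool.Agent.R889

open Pool.Agent.H436R3.Fol Pool.Agent.H436R3.KT Pool.Agent.W497.Mld Pool.Agent.TH165.ACC
open MvPolynomial

variable {k : ℕ} {K : Type} [Field K] [Algebra ℂ K]
  [Algebra (MvPolynomial (Fin (k + 2)) ℂ) K] [IsFractionRing (MvPolynomial (Fin (k + 2)) ℂ) K]
  [IsScalarTower ℂ (MvPolynomial (Fin (k + 2)) ℂ) K]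

/-- the linear function of the boundary `t D_0` -/
noncomputable def ell (k : ℕ) (N : Num) (t : ℝ) : Fin (k + 2) → ℝ :=
  Fin.cons ((1 - t + N.p) / N.r) fun _ => 1

theorem ell_sum (N : Num) (t : ℝ) (u : Fin (k + 2) → ℤ) :
    ∑ i, ell k N t i * (u i : ℝ) =
      (1 - t + N.p) / N.r * u 0 + u 1 + ∑ j : Fin k, (u j.succ.succ : ℝ) := by
  rw [Fin.sum_univ_succ, Fin.sum_univ_succ]
  simp only [ell, Fin.cons_zero, Fin.cons_succ, one_mul]
  rw [Fin.succ_zero_eq_one]
  ring

theorem ell_ray_zero (N : Num) (t : ℝ) : ∑ i, ell k N t i * (ray k N.r N.p 0 i : ℝ) = 1 - t := by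
  rw [ell_sum]
  have hr : (N.r : ℝ) ≠ 0 := by exact_mod_cast N.r_pos.ne'
  have h1 : ray k N.r N.p 0 0 = N.r := rfl
  have h2 : ray k N.r N.p 0 1 = -N.p := rfl
  have h3 : ∀ j : Fin k, ray k N.r N.p 0 j.succ.succ = 0 := fun j => rfl
  simp only [h1, h2, h3]
  push_cast
  rw [Finset.sum_const_zero]
  field_simp
  ring

theorem ell_ray_succ (N : Num) (t : ℝ) (j : Fin (k + 1)) :
    ∑ i, ell k N t i * (ray k N.r N.p j.succ i : ℝ) = 1 := by
  rw [Finset.sum_eq_single j.succ]
  · rw [ray_succ, Pi.single_eq_same]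
    simp [ell]
  · intro i _ hi
    rw [ray_succ, Pi.single_eq_of_ne hi]
    simp
  · intro h; exact absurd (Finset.mem_univ _) h

/-- the zero divisor -/
def zeroW (X : AffVar K) : WeilDiv X where
  n := 0
  D := Fin.elim0
  on := fun i => i.elim0
  a := Fin.elim0

theorem zeroW_mult (X : AffVar K) (v : DVal K) : (zeroW X).mult v = 0 := by
  classical
  exact Finset.sum_eq_zero fun i _ => i.elim0

/-- a prime divisor as a divisor -/
def primeW {X : AffVar K} {w : DVal K} (hw : IsLocalRing' X.R w) : WeilDiv X where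
  n := 1
  D := fun _ => w
  on := fun _ => hw
  a := fun _ => 1

open Classical in
theorem primeW_mult {X : AffVar K} {w : DVal K} (hw : IsLocalRing' X.R w) (v : DVal K) :
    (primeW hw).mult v = if SameDiv v w then 1 else 0 := by
  rw [WeilDiv.mult]
  change ∑ i : Fin 1, _ = _
  rw [Fin.sum_univ_one]
  rfl

/-- the boundary divisors of the example: one of them is the prime divisor `w`, and all others
are zero -/
def bdry {X : AffVar K} {w : DVal K} (hw : IsLocalRing' X.R w) {m : ℕ} (i₀ : Fin m) (i : Fin m) :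
    WeilDiv X := if i = i₀ then primeW hw else zeroW X

open Classical in
theorem comb_bdry {X : AffVar K} {w : DVal K} (hw : IsLocalRing' X.R w) {m : ℕ} (i₀ : Fin m)
    (t : Fin m → ℝ) (v : DVal K) :
    comb t (bdry hw i₀) v = if SameDiv v w then t i₀ else 0 := by
  rw [comb, Finset.sum_eq_single i₀]
  · rw [bdry, if_pos rfl, primeW_mult]
    split_ifs <;> simp
  · intro i _ hi
    rw [bdry, if_neg hi, zeroW_mult]
    simp
  · intro h; exact absurd (Finset.mem_univ _) h

section

variable {N : Num} {g : ToricGerm (k + 2) K} {h : k + 2 = g.N}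
  (hE : ∀ i, g.E (Fin.cast h i) = ray k N.r N.p i) {w : DVal K} (hw : IsMonomial (k + 2) w)
  (htw : (tv w : Fin (k + 2) → ℤ) = ray k N.r N.p 0)

include hE hw htw

theorem w_local : IsLocalRing' g.X.R w :=
  ToricGerm.local_E hw (i := Fin.cast h 0) (by rw [htw, hE])

theorem ray_ne (j : Fin (k + 1)) : ray k N.r N.p j.succ ≠ ray k N.r N.p 0 := by
  intro h0
  have h1 := congrFun h0 0
  rw [ray_succ, Pi.single_eq_of_ne (Fin.succ_ne_zero _).symm] at h1
  have h2 : ray k N.r N.p 0 0 = N.r := rfl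
  rw [h2] at h1
  exact N.r_pos.ne h1

/-- the local equation of `K_X + t D_0` -/
noncomputable def exEq {m : ℕ} (i₀ : Fin m) (t : Fin m → ℝ) :
    RLocEq g.P (comb t (bdry (w_local hE hw htw) i₀)) :=
  torEq g (ell k N (t i₀)) (fun v _ h0 => by
    classical
    rw [comb_bdry, if_neg]
    intro hs
    have h1 : (tv v : Fin (k + 2) → ℤ) = tv w := funext fun i => hs _ (cv_ne i)
    rw [h0, htw] at h1
    have h2 := congrFun h1 0
    have h3 : ray k N.r N.p 0 0 = N.r := rfl
    rw [h3] at h2
    exact N.r_pos.ne h2) (fun v i w' _ hw' htw' hs => by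
    classical
    have h0 : (tv v : Fin (k + 2) → ℤ) = g.E i := by
      rw [← htw']
      exact funext fun i => hs _ (cv_ne i)
    obtain ⟨j, rfl⟩ : ∃ j, i = Fin.cast h j := ⟨Fin.cast h.symm i, by simp⟩
    rw [hE] at h0 htw' ⊢
    rw [comb_bdry]
    refine Fin.cases (fun h0 htw' => ?_) (fun j h0 htw' => ?_) j h0 htw'
    · rw [ell_ray_zero, if_pos]
      · ring
      · intro f hf
        -- both are monomial with the same weights
        have h5 : SameDiv w' w := by
          apply same_of_reg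
          intro f hf
          have e1 := local_Hs hw'
          have e2 := local_Hs hw
          rw [htw'] at e1
          rw [htw] at e2
          obtain ⟨a, b, ha, hb, hb0, hbo, hab⟩ := e1.2 f hf
          by_cases hf0 : f = 0
          · exact Or.inl hf0
          have hord : ∀ x : K, x ≠ 0 → w'.ord x = w.ord x := by
            intro x hx
            obtain ⟨p, q, hq, rfl⟩ := exists_frac (MvPolynomial (Fin (k + 2)) ℂ) x
            have hp0 : p ≠ 0 := by rintro rfl; simp at hx
            rw [← jo_apply, ← jo_apply, w'.ord_div (jo_ne hp0) (jo_ne hq),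
              w.ord_div (jo_ne hp0) (jo_ne hq)]
            have hpoly : ∀ y : MvPolynomial (Fin (k + 2)) ℂ, y ≠ 0 →
                w'.ord (jo (Fin (k + 2)) K y) = w.ord (jo (Fin (k + 2)) K y) := by
              intro y hy
              obtain ⟨⟨s, hs, h6⟩, h7⟩ := hw' y hy
              obtain ⟨⟨s', hs', h8⟩, h9⟩ := hw y hy
              have e3 := h7 s' hs'
              have e4 := h9 s hs
              rw [htw'] at h6 e3
              rw [htw] at h8 e4
              omega
            rw [hpoly p hp0, hpoly q hq]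
          rcases hf with hf | hf
          · exact absurd hf hf0
          · exact Or.inr (by rw [← hord f hf0]; exact hf)
        rw [hs f hf, h5 f hf]
    · rw [ell_ray_succ, if_neg]
      · ring
      · intro hs'
        have h1 : (tv v : Fin (k + 2) → ℤ) = tv w := funext fun i => hs' _ (cv_ne i)
        rw [h0, htw] at h1
        exact ray_ne hE hw htw j h1)

/-- log discrepancies of all divisors over the germ -/
theorem logDisc_ge {m : ℕ} {i₀ : Fin m} {t : Fin m → ℝ}
    (e : RLocEq g.P (comb t (bdry (w_local hE hw htw) i₀))) {v : DVal K} (hv : IsOverGerm g.P v) :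
    ∃ a, IsRLogDisc e v a ∧ ∑ i, ell k N (t i₀) i * ((tv v : Fin (k + 2) → ℤ) i : ℝ) ≤ a := by
  obtain ⟨b, hb, hb1⟩ := exists_can_toric (g := g) hv.1
  refine ⟨1 + (b : ℝ) + ∑ i, ell k N (t i₀) i * ((tv v : Fin (k + 2) → ℤ) i : ℝ), ?_, ?_⟩
  · rw [logDisc_indep e (exEq hE hw htw i₀ t) hv]
    exact torEq_logDisc.2 ⟨b, hb, rfl⟩
  · have : (-1 : ℝ) ≤ b := by exact_mod_cast hb1
    linarith

/-- log discrepancies of monomial divisors over the germ -/
theorem logDisc_mono {m : ℕ} {i₀ : Fin m} {t : Fin m → ℝ}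
    (e : RLocEq g.P (comb t (bdry (w_local hE hw htw) i₀))) {v : DVal K} (hv : IsOverGerm g.P v)
    (hm : IsMonomial (k + 2) v) :
    IsRLogDisc e v (∑ i, ell k N (t i₀) i * ((tv v : Fin (k + 2) → ℤ) i : ℝ)) := by
  rw [logDisc_indep e (exEq hE hw htw i₀ t) hv]
  refine torEq_logDisc.2 ⟨-1, can_mon g.e g.hT hm, ?_⟩
  push_cast
  ring

theorem logDisc_uniq {m : ℕ} {i₀ : Fin m} {t : Fin m → ℝ}
    (e : RLocEq g.P (comb t (bdry (w_local hE hw htw) i₀))) {v : DVal K} {a b : ℝ}
    (ha : IsRLogDisc e v a) (hb : IsRLogDisc e v b) : a = b := by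
  obtain ⟨x, hx, rfl⟩ := ha
  obtain ⟨y, hy, rfl⟩ := hb
  rw [hx.unique hy]

end

end Pool.Agent.R889
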