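import Mathlib
import Pool.Agent.R889.Poly2

/-!
# The minimal log discrepancy is not an affine function of the coefficient
-/

set_option autoImplicit false
set_option linter.unusedSectionVars false

namespace Pool.Agent.R889

open Pool.Agent.H436R3.Fol Pool.Agent.H436R3.KT Pool.Agent.W497.Mld Pool.Agent.TH165.ACC
open MvPolynomial

/-- the numerical data of a rational number `n / m` in `(0, 1)` -/
theorem exists_num {s : ℚ} (h0 : 0 < s) : ∃ N : Num,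
    ((s : ℝ) + N.p) / N.r = 1 / N.m ∧ N.p = s.num + 1 ∧ N.m = s.den := by
  have h1 : 0 < s.num := Rat.num_pos.2 h0
  have h2 : 0 < s.den := s.den_pos
  have h3 : (0 : ℝ) < s.den := by exact_mod_cast h2
  let N : Num := ⟨s.num + 1, s.den, (s.den + 1) * (s.num + 1) - 1, by omega, by exact_mod_cast h2,
    rfl⟩
  refine ⟨N, ?_, rfl, rfl⟩
  have hr : (N.r : ℝ) ≠ 0 := by exact_mod_cast N.r_pos.ne'
  have hm : (N.m : ℝ) ≠ 0 := by
    change ((s.den : ℤ) : ℝ) ≠ 0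
    push_cast
    exact h3.ne'
  rw [div_eq_div_iff hr hm]
  have h4 : (s : ℝ) * (s.den : ℝ) = s.num := by
    have := Rat.mul_den_eq_num s
    exact_mod_cast this
  have h5 : (N.r : ℝ) = ((s.den : ℝ) + 1) * (s.num + 1) - 1 := by
    change (((s.den + 1) * (s.num + 1) - 1 : ℤ) : ℝ) = _
    push_cast
    ring
  have h6 : (N.m : ℝ) = s.den := by
    change ((s.den : ℤ) : ℝ) = _
    push_cast
    rfl
  have h7 : (N.p : ℝ) = s.num + 1 := by
    change ((s.num + 1 : ℤ) : ℝ) = _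
    push_cast
    rfl
  rw [h5, h6, h7, add_mul, h4]
  ring

variable {k : ℕ} {K : Type} [Field K] [Algebra ℂ K]
  [Algebra (MvPolynomial (Fin (k + 2)) ℂ) K] [IsFractionRing (MvPolynomial (Fin (k + 2)) ℂ) K]
  [IsScalarTower ℂ (MvPolynomial (Fin (k + 2)) ℂ) K]

/-- the first divisor -/
def u1 (k : ℕ) : Fin (k + 2) → ℤ := Fin.cons 1 (Fin.cons 0 fun _ => 1)

/-- the second divisor -/
def u2 (k : ℕ) (N : Num) : Fin (k + 2) → ℤ := Fin.cons (N.m + 1) (Fin.cons (-1) fun _ => 1)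

theorem prim_u1 : Prim (u1 k) := by
  refine ⟨Pi.single 0 1, ?_⟩
  rw [pr, Finset.sum_eq_single 0]
  · rw [Pi.single_eq_same]; rfl
  · intro i _ hi
    rw [Pi.single_eq_of_ne hi, zero_mul]
  · intro h; exact absurd (Finset.mem_univ _) h

theorem prim_u2 (N : Num) : Prim (u2 k N) := by
  refine ⟨Pi.single 1 (-1), ?_⟩
  rw [pr, Finset.sum_eq_single 1]
  · rw [Pi.single_eq_same]; rfl
  · intro i _ hi
    rw [Pi.single_eq_of_ne hi, zero_mul]
  · intro h; exact absurd (Finset.mem_univ _) h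

theorem ell_u1 (N : Num) (t : ℝ) :
    ∑ i, ell k N t i * ((u1 k i : ℤ) : ℝ) = k + (1 - t + N.p) / N.r := by
  rw [ell_sum]
  have h1 : u1 k 0 = 1 := rfl
  have h2 : u1 k 1 = 0 := rfl
  have h3 : ∀ j : Fin k, u1 k j.succ.succ = 1 := fun _ => rfl
  simp only [h1, h2, h3]
  simp
  ring

theorem ell_u2 (N : Num) (t : ℝ) :
    ∑ i, ell k N t i * ((u2 k N i : ℤ) : ℝ) = k - 1 + (N.m + 1) * ((1 - t + N.p) / N.r) := by
  rw [ell_sum]
  have h1 : u2 k N 0 = N.m + 1 := rfl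
  have h2 : u2 k N 1 = -1 := rfl
  have h3 : ∀ j : Fin k, u2 k N j.succ.succ = 1 := fun _ => rfl
  simp only [h1, h2, h3]
  simp
  ring

section

variable {N : Num} {g : ToricGerm (k + 2) K} {h : k + 2 = g.N}
  (hE : ∀ i, g.E (Fin.cast h i) = ray k N.r N.p i)

include hE

theorem inter_u1 : g.Inter (u1 k) := by
  rw [inter_iff hE]
  refine ⟨one_pos, ?_, fun _ => one_pos⟩
  have h1 : u1 k 0 = 1 := rfl
  have h2 : u1 k 1 = 0 := rfl
  have := N.hp
  rw [h1, h2]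
  linarith

theorem inter_u2 : g.Inter (u2 k N) := by
  rw [inter_iff hE]
  have h3 := N.hm
  refine ⟨?_, ?_, fun _ => one_pos⟩
  · change 0 < N.m + 1
    linarith
  have h1 : u2 k N 0 = N.m + 1 := rfl
  have h2 : u2 k N 1 = -1 := rfl
  rw [h1, h2, N.hr]
  nlinarith

/-- the lower bound for the klt pair -/
theorem ell_ge {t : ℝ} (ht : t ≤ 1) {u : Fin (k + 2) → ℤ} (hu : g.Inter u) :
    (k : ℝ) ≤ ∑ i, ell k N t i * (u i : ℝ) := by
  rw [ell_sum]
  obtain ⟨h0, h1, h2⟩ := (inter_iff hE u).1 hu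
  have hr : (0 : ℝ) < N.r := by exact_mod_cast N.r_pos
  have h3 : (k : ℝ) ≤ ∑ j : Fin k, (u j.succ.succ : ℝ) := by
    calc (k : ℝ) = ∑ j : Fin k, (1 : ℝ) := by simp
      _ ≤ _ := Finset.sum_le_sum fun j _ => by
        have := h2 j
        exact_mod_cast this
  have h4 : (0 : ℝ) < u 0 := by exact_mod_cast h0
  have h5 : (0 : ℝ) < N.r * u 1 + N.p * u 0 := by exact_mod_cast h1
  have h6 : 0 ≤ (1 - t + N.p) / N.r * u 0 + u 1 := by
    have h7 : (1 - t + N.p) / N.r * u 0 + u 1 =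
        ((1 - t) * u 0 + (N.r * u 1 + N.p * u 0)) / N.r := by
      field_simp
      ring
    rw [h7]
    apply div_nonneg _ hr.le
    nlinarith
  linarith

/-- the lower bound at the break point -/
theorem ell_ge' {t : ℝ} (ht : (1 - t + N.p) / N.r = 1 / N.m) {u : Fin (k + 2) → ℤ}
    (hu : g.Inter u) : (k : ℝ) + 1 / N.m ≤ ∑ i, ell k N t i * (u i : ℝ) := by
  rw [ell_sum, ht]
  obtain ⟨h0, h1, h2⟩ := (inter_iff hE u).1 hu
  have hm : (0 : ℝ) < N.m := by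
    have := N.hm
    exact_mod_cast (by linarith : (0 : ℤ) < N.m)
  have h3 : (k : ℝ) ≤ ∑ j : Fin k, (u j.succ.succ : ℝ) := by
    calc (k : ℝ) = ∑ j : Fin k, (1 : ℝ) := by simp
      _ ≤ _ := Finset.sum_le_sum fun j _ => by
        have := h2 j
        exact_mod_cast this
  have h4 : 0 < N.m * u 1 + u 0 := by
    have h5 : N.r * (N.m * u 1 + u 0) = N.m * (N.r * u 1 + N.p * u 0) + (N.p - 1) * u 0 := by
      rw [N.hr]
      ring
    have h6 : 0 < N.m * (N.r * u 1 + N.p * u 0) := mul_pos (by linarith [N.hm]) h1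
    have h7 : 0 < (N.p - 1) * u 0 := mul_pos (by linarith [N.hp]) h0
    have h8 : 0 < N.r * (N.m * u 1 + u 0) := by linarith
    exact (pos_iff_pos_of_mul_pos h8).1 N.r_pos
  have h5 : (1 : ℝ) ≤ N.m * u 1 + u 0 := by exact_mod_cast h4
  have h6 : 1 / (N.m : ℝ) ≤ 1 / N.m * u 0 + u 1 := by
    have h7 : 1 / (N.m : ℝ) * u 0 + u 1 = (N.m * u 1 + u 0) / N.m := by
      field_simp
      ring
    rw [h7]
    exact div_le_div_of_nonneg_right h5 hm.le
  linarith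

end

/-- the main estimate: no affine function computes the minimal log discrepancies -/
theorem not_affine {N : Num} {g : ToricGerm (k + 2) K} {h : k + 2 = g.N}
    (hE : ∀ i, g.E (Fin.cast h i) = ray k N.r N.p i) {w : DVal K} (hw : IsMonomial (k + 2) w)
    (htw : (tv w : Fin (k + 2) → ℤ) = ray k N.r N.p 0) {m : ℕ} (i₀ : Fin m)
    {T₁ T₂ : Fin m → ℝ} {lam : ℝ} (h0 : 0 < lam) (h1 : lam < 1) (h12 : T₁ i₀ < T₂ i₀)
    (hbr : (1 - (lam * T₁ i₀ + (1 - lam) * T₂ i₀) + N.p) / N.r = 1 / N.m) (c₀ : ℝ) (c : Fin m → ℝ)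
    (hT₁ : IsMldOf g.P (comb T₁ (bdry (w_local hE hw htw) i₀)) (c₀ + ∑ i, c i * T₁ i))
    (hT₂ : IsMldOf g.P (comb T₂ (bdry (w_local hE hw htw) i₀)) (c₀ + ∑ i, c i * T₂ i))
    (hT₀ : IsMldOf g.P (comb (lam • T₁ + (1 - lam) • T₂) (bdry (w_local hE hw htw) i₀))
      (c₀ + ∑ i, c i * (lam • T₁ + (1 - lam) • T₂) i)) : False := by
  have hm : (0 : ℝ) < N.m := by
    have := N.hm
    exact_mod_cast (by linarith : (0 : ℤ) < N.m)
  have hr : (0 : ℝ) < N.r := by exact_mod_cast N.r_pos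
  obtain ⟨v1, hv1, htv1⟩ := exists_mon (K := K) (prim_u1 (k := k))
  obtain ⟨v2, hv2, htv2⟩ := exists_mon (K := K) (prim_u2 (k := k) N)
  have hov1 : IsOverGerm g.P v1 := ToricGerm.overGerm hv1 (by rw [htv1]; exact inter_u1 hE)
  have hov2 : IsOverGerm g.P v2 := ToricGerm.overGerm hv2 (by rw [htv2]; exact inter_u2 hE)
  set t₀ : ℝ := lam * T₁ i₀ + (1 - lam) * T₂ i₀ with ht₀
  -- upper bounds at the end points
  have hA : c₀ + ∑ i, c i * T₁ i ≤ k + (1 - T₁ i₀ + N.p) / N.r := by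
    obtain ⟨e, he⟩ := hT₁
    have h2 := logDisc_mono hE hw htw e hov1 hv1
    rw [htv1, ell_u1] at h2
    exact he.1 ⟨v1, hov1, h2⟩
  have hB : c₀ + ∑ i, c i * T₂ i ≤ k - 1 + (N.m + 1) * ((1 - T₂ i₀ + N.p) / N.r) := by
    obtain ⟨e, he⟩ := hT₂
    have h2 := logDisc_mono hE hw htw e hov2 hv2
    rw [htv2, ell_u2] at h2
    exact he.1 ⟨v2, hov2, h2⟩
  have hC : k + 1 / (N.m : ℝ) ≤ c₀ + ∑ i, c i * (lam • T₁ + (1 - lam) • T₂) i := by
    obtain ⟨e, he⟩ := hT₀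
    refine he.2 ?_
    rintro a ⟨v, hov, hl⟩
    obtain ⟨b, hb, hb'⟩ := logDisc_ge hE hw htw e hov
    rw [logDisc_uniq hE hw htw e hl hb]
    refine le_trans ?_ hb'
    have h3 : (lam • T₁ + (1 - lam) • T₂) i₀ = t₀ := by
      simp [ht₀]
    rw [h3]
    exact ell_ge' hE hbr (ToricGerm.inter_of_over (n := k + 2) hov)
  have hsum : c₀ + ∑ i, c i * (lam • T₁ + (1 - lam) • T₂) i =
      lam * (c₀ + ∑ i, c i * T₁ i) + (1 - lam) * (c₀ + ∑ i, c i * T₂ i) := by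
    have h3 : ∑ i, c i * (lam • T₁ + (1 - lam) • T₂) i =
        lam * ∑ i, c i * T₁ i + (1 - lam) * ∑ i, c i * T₂ i := by
      rw [Finset.mul_sum, Finset.mul_sum, ← Finset.sum_add_distrib]
      exact Finset.sum_congr rfl fun i _ => by
        simp only [Pi.add_apply, Pi.smul_apply, smul_eq_mul]
        ring
    rw [h3]
    ring
  rw [hsum] at hC
  have h4 : (1 - T₁ i₀ + N.p) / N.r = 1 / N.m + (t₀ - T₁ i₀) / N.r := by
    rw [← hbr]
    field_simp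
    ring
  have h5 : (1 - T₂ i₀ + N.p) / N.r = 1 / N.m + (t₀ - T₂ i₀) / N.r := by
    rw [← hbr]
    field_simp
    ring
  rw [h4] at hA
  rw [h5] at hB
  have h6 : t₀ - T₁ i₀ = (1 - lam) * (T₂ i₀ - T₁ i₀) := by rw [ht₀]; ring
  have h7 : t₀ - T₂ i₀ = -(lam * (T₂ i₀ - T₁ i₀)) := by rw [ht₀]; ring
  rw [h6] at hA
  rw [h7] at hB
  have h8 : lam * (c₀ + ∑ i, c i * T₁ i) ≤
      lam * (k + (1 / N.m + (1 - lam) * (T₂ i₀ - T₁ i₀) / N.r)) :=
    mul_le_mul_of_nonneg_left hA h0.le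
  have h9 : (1 - lam) * (c₀ + ∑ i, c i * T₂ i) ≤
      (1 - lam) * (k - 1 + (N.m + 1) * (1 / N.m + -(lam * (T₂ i₀ - T₁ i₀)) / N.r)) :=
    mul_le_mul_of_nonneg_left hB (by linarith)
  have h10 : lam * (k + (1 / N.m + (1 - lam) * (T₂ i₀ - T₁ i₀) / N.r)) +
      (1 - lam) * (k - 1 + (N.m + 1) * (1 / N.m + -(lam * (T₂ i₀ - T₁ i₀)) / N.r)) =
      k + 1 / N.m - lam * (1 - lam) * (T₂ i₀ - T₁ i₀) * N.m / N.r := by
    field_simp
    ring
  have h11 : 0 < lam * (1 - lam) * (T₂ i₀ - T₁ i₀) * N.m / N.r := by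
    apply div_pos _ hr
    apply mul_pos _ hm
    apply mul_pos (mul_pos h0 (by linarith)) (by linarith)
  linarith

/-- **No uniform rational polytope.** -/
theorem no_polytope {d m : ℕ} (hd : 3 ≤ d) {v : Fin m → ℝ} {i₀ : Fin m} (hirr : Irrational (v i₀))
    (hv0 : 0 < v i₀) (hv1 : v i₀ < 1) {ε : ℝ} (hε : ε ≤ d - 2) : ¬ HasUniformPolytope d m ε v := by
  obtain ⟨k, rfl⟩ : ∃ k, d = k + 2 := ⟨d - 2, by omega⟩
  rintro ⟨κ, q, a, ε', ha, hε', ha1, hav, hsum, H⟩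
  -- two points on both sides
  have h1 : ∃ j, (q j i₀ : ℝ) < v i₀ := by
    by_contra hcon
    push Not at hcon
    have h2 : ∀ j ∈ Finset.univ, a j * ((q j i₀ : ℝ) - v i₀) = 0 := by
      rw [← Finset.sum_eq_zero_iff_of_nonneg fun j _ => mul_nonneg (ha j).le (by linarith [hcon j])]
      simp only [mul_sub, Finset.sum_sub_distrib, ← Finset.sum_mul]
      rw [hav i₀, ha1]
      ring
    have hκ : κ ≠ 0 := by
      rintro rfl
      simp at ha1
    have h3 := h2 ⟨0, Nat.pos_of_ne_zero hκ⟩ (Finset.mem_univ _)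
    have h4 := (mul_eq_zero.1 h3).resolve_left (ha _).ne'
    exact hirr ⟨q ⟨0, Nat.pos_of_ne_zero hκ⟩ i₀, by linarith⟩
  have h2 : ∃ j, v i₀ < (q j i₀ : ℝ) := by
    by_contra hcon
    push Not at hcon
    have h2 : ∀ j ∈ Finset.univ, a j * (v i₀ - (q j i₀ : ℝ)) = 0 := by
      rw [← Finset.sum_eq_zero_iff_of_nonneg fun j _ => mul_nonneg (ha j).le (by linarith [hcon j])]
      simp only [mul_sub, Finset.sum_sub_distrib, ← Finset.sum_mul]
      rw [hav i₀, ha1]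
      ring
    have hκ : κ ≠ 0 := by
      rintro rfl
      simp at ha1
    have h3 := h2 ⟨0, Nat.pos_of_ne_zero hκ⟩ (Finset.mem_univ _)
    have h4 := (mul_eq_zero.1 h3).resolve_left (ha _).ne'
    exact hirr ⟨q ⟨0, Nat.pos_of_ne_zero hκ⟩ i₀, by linarith⟩
  obtain ⟨j₁, hj₁⟩ := h1
  obtain ⟨j₂, hj₂⟩ := h2
  -- a rational number in between
  obtain ⟨τ, hτ1, hτ2⟩ := exists_rat_btwn (lt_min hj₂ hv1)
  have hτ3 : (τ : ℝ) < q j₂ i₀ := lt_of_lt_of_le hτ2 (min_le_left _ _)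
  have hτ4 : (τ : ℝ) < 1 := lt_of_lt_of_le hτ2 (min_le_right _ _)
  obtain ⟨N, hN, -, -⟩ := exists_num (s := 1 - τ) (by
    have : (τ : ℝ) < (1 : ℚ) := by exact_mod_cast hτ4
    have h3 : τ < 1 := by exact_mod_cast this
    linarith)
  let K := FractionRing (MvPolynomial (Fin (k + 2)) ℂ)
  obtain ⟨g, hg, hE⟩ := exists_g (k := k) (K := K) N
  obtain ⟨w, hw, htw⟩ := exists_mon (K := K) (u := ray k N.r N.p 0) (by
    rw [← hE]
    exact g.prim _)
  have hXd : g.X.d = k + 2 := by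
    have := Fintype.card_congr g.e
    simpa using this
  have hlc : IsEpsLc ε g.P (comb v (bdry (w_local hE hw htw) i₀)) := by
    refine ⟨exEq hE hw htw i₀ v, fun v' hv' => ?_⟩
    obtain ⟨b, hb, hb'⟩ := logDisc_ge hE hw htw (exEq hE hw htw i₀ v) hv'
    refine ⟨b, hb, le_trans ?_ hb'⟩
    refine le_trans ?_ (ell_ge hE hv1.le (ToricGerm.inter_of_over (n := k + 2) hv'))
    push_cast at hε
    linarith
  obtain ⟨⟨c₀, c, hc⟩, -⟩ := H K g.X g.P (bdry (w_local hE hw htw) i₀) hXd (toric_normal g) hlc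
  set T₁ : Fin m → ℝ := fun i => (q j₁ i : ℝ) with hT₁
  set T₂ : Fin m → ℝ := fun i => (q j₂ i : ℝ) with hT₂
  have h12 : T₁ i₀ < T₂ i₀ := hj₁.trans hj₂
  have hpos : 0 < T₂ i₀ - T₁ i₀ := by linarith
  set lam : ℝ := (T₂ i₀ - τ) / (T₂ i₀ - T₁ i₀) with hlam
  have hl0 : 0 < lam := div_pos (by linarith) hpos
  have hl1 : lam < 1 := by
    rw [hlam, div_lt_one hpos]
    have : T₁ i₀ < τ := hj₁.trans hτ1
    linarith
  have hτ : lam * T₁ i₀ + (1 - lam) * T₂ i₀ = τ := by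
    rw [hlam]
    field_simp
    ring
  have hm1 : T₁ ∈ convexHull ℝ (Set.range fun j i => (q j i : ℝ)) := subset_convexHull _ _ ⟨j₁, rfl⟩
  have hm2 : T₂ ∈ convexHull ℝ (Set.range fun j i => (q j i : ℝ)) := subset_convexHull _ _ ⟨j₂, rfl⟩
  have hm0 : lam • T₁ + (1 - lam) • T₂ ∈ convexHull ℝ (Set.range fun j i => (q j i : ℝ)) :=
    (convex_convexHull ℝ _) hm1 hm2 hl0.le (by linarith) (by ring)
  refine not_affine hE hw htw i₀ hl0 hl1 h12 ?_ c₀ c (hc _ hm1) (hc _ hm2) (hc _ hm0)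
  rw [hτ, ← hN]
  push_cast
  rfl

end Pool.Agent.R889
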